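import Pool.Agent.P.MP_d7fca3_co.Defs
import Pool.Agent.K.MP_d7fca3_co.C0

set_option autoImplicit false

namespace Pool.Agent.Results.MP_d7fca3_co.Uniqueness

open Pool.Agent.P.MP_d7fca3_co

theorem result (ι : Type) [Infinite ι] [DecidableEq ι] :
    (IsMethod (EIP (ι := ι)) ∧ IsPeriodic (EIP (ι := ι)) ∧ IsUniform (EIP (ι := ι)) ∧
      IsReflectiveOffTies (EIP (ι := ι))) ∧
    ∀ F : (ι →₀ ℕ) → Set (List ι),
      IsMethod F → IsPeriodic F → IsUniform F → IsReflectiveOffTies F →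
      ∀ q : ι →₀ ℕ, q ≠ 0 → F q ⊆ EIP q :=
  Pool.Agent.P.MP_d7fca3_co.main ι

end Pool.Agent.Results.MP_d7fca3_co.Uniqueness
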